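import Mathlib

set_option autoImplicit false

/-!
# Anosov matrices and Nies–Semukhin presentations of `ℤ²`

We show that an Anosov matrix `A ∈ SL(2, ℤ)` which is FA-recognizable with respect to `ψ_{p,q}`
commutes with the companion matrix of `x² + p x - q`.  Hence for instance the matrix
`(2 1; 1 1)` is FA-recognizable with respect to no `ψ_{p,q}`.
-/

namespace Pool.Agent.Results.MP_334179_al.CatMap

open Polynomial

/-- The index set `𝒫` of the presentations. -/
def Index (p q : ℤ) : Prop :=
  1 + |p| < |q| ∧ IsCoprime p q ∧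
    (p ^ 2 + 4 * q = -4 ∨ p ^ 2 + 4 * q = -3 ∨ p ^ 2 + 4 * q = 1 ∨ p ^ 2 + 4 * q = 4 ∨
      (0 < p ^ 2 + 4 * q ∧ ¬ IsSquare (p ^ 2 + 4 * q)))

/-- The alphabet `Σ_q = {-(|q|-1), …, |q|-1}`, with the order of the integers. -/
abbrev Digit (q : ℤ) : Type := {a : ℤ // |a| < |q|}

/-- The polynomial `t = x² + p x - q`. -/
noncomputable def tPoly (p q : ℤ) : ℤ[X] := X ^ 2 + C p * X - C q

/-- The polynomial `a_0 + a_1 x + … + a_k x^k` encoded by the string `a_0 a_1 … a_k`. -/
noncomputable def poly {q : ℤ} : List (Digit q) → ℤ[X]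
  | [] => 0
  | a :: w => C (a : ℤ) + X * poly w

/-- The length-lexicographic order. -/
def Llex {q : ℤ} (u v : List (Digit q)) : Prop :=
  u.length < v.length ∨ (u.length = v.length ∧ List.Lex (· < ·) u v)

/-- `Dom_{p,q}`: no length-lexicographically smaller string is equivalent to `w`. -/
def Dom (p q : ℤ) : Set (List (Digit q)) :=
  {w | ∀ u, Llex u w → ¬ tPoly p q ∣ poly u - poly w}

/-- `ψ_{p,q}(w) = (c_0, c_1)`, where `c_0 + c_1 x` is the remainder of the polynomial of `w`
modulo `t`. -/
noncomputable def psi (p q : ℤ) (w : List (Digit q)) : Fin 2 → ℤ :=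
  ![(poly w %ₘ tPoly p q).coeff 0, (poly w %ₘ tPoly p q).coeff 1]

/-- The convolution of two strings; `none` is the padding symbol. -/
def conv {D : Type} (u v : List D) : List (Option D × Option D) :=
  (List.range (max u.length v.length)).map fun k => (u[k]?, v[k]?)

/-- A binary relation on strings is FA-recognizable if the language of the convolutions of its
pairs is regular. -/
def FARecognizable {D : Type} (R : Set (List D × List D)) : Prop :=
  Language.IsRegular ({x | ∃ r ∈ R, x = conv r.1 r.2} : Language (Option D × Option D))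

/-- The matrix `A` is FA-recognizable with respect to `ψ_{p,q}`. -/
def Recognizable (p q : ℤ) (A : Matrix (Fin 2) (Fin 2) ℤ) : Prop :=
  FARecognizable {r : List (Digit q) × List (Digit q) |
    r.1 ∈ Dom p q ∧ r.2 ∈ Dom p q ∧ psi p q r.2 = A.mulVec (psi p q r.1)}

/-! ### values -/

/-- multiplication by `x` -/
def mx (p q : ℤ) : ℤ × ℤ →ₗ[ℤ] ℤ × ℤ where
  toFun v := (q * v.2, v.1 - p * v.2)
  map_add' u v := by ext <;> simp <;> ring
  map_smul' c v := by ext <;> simp <;> ring

theorem mx_apply (p q : ℤ) (v : ℤ × ℤ) : mx p q v = (q * v.2, v.1 - p * v.2) := rfl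

/-- the value of a string -/
def val (p q : ℤ) : List (Digit q) → ℤ × ℤ
  | [] => 0
  | a :: w => ((a : ℤ), 0) + mx p q (val p q w)

theorem val_append {p q : ℤ} (u v : List (Digit q)) :
    val p q (u ++ v) = val p q u + ((mx p q) ^ u.length) (val p q v) := by
  induction u with
  | nil => simp [val]
  | cons a u ih =>
    rw [List.cons_append, val, ih, map_add, val, List.length_cons, pow_succ', Module.End.mul_apply,
      add_assoc]

theorem poly_eq {p q : ℤ} (w : List (Digit q)) : ∃ r : ℤ[X],
    poly w = C (val p q w).1 + C (val p q w).2 * X + tPoly p q * r := by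
  induction w with
  | nil => exact ⟨0, by simp [poly, val]⟩
  | cons a w ih =>
    obtain ⟨r, hr⟩ := ih
    refine ⟨X * r + C (val p q w).2, ?_⟩
    rw [poly, hr, val, mx_apply]
    simp only [Prod.fst_add, Prod.snd_add, map_add, zero_add, map_mul, map_sub, tPoly]
    ring

theorem tPoly_monic (p q : ℤ) : (tPoly p q).Monic := by
  unfold tPoly
  monicity!

theorem tPoly_degree (p q : ℤ) : (tPoly p q).degree = 2 := by
  unfold tPoly
  compute_degree!

theorem mod_eq {p q : ℤ} (w : List (Digit q)) :
    poly w %ₘ tPoly p q = C (val p q w).1 + C (val p q w).2 * X := by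
  obtain ⟨r, hr⟩ := poly_eq (p := p) w
  rw [hr, add_modByMonic, (modByMonic_eq_zero_iff_dvd (tPoly_monic p q)).2 (dvd_mul_right _ _),
    add_zero, modByMonic_eq_self_iff (tPoly_monic p q), tPoly_degree]
  have h : (C (val p q w).1 + C (val p q w).2 * X).degree ≤ (1 : WithBot ℕ) := by
    rw [add_comm]; exact degree_linear_le
  exact lt_of_le_of_lt h (by norm_num)

theorem coeff_zero' (a b : ℤ) : (C a + C b * X : ℤ[X]).coeff 0 = a := by
  rw [coeff_add, coeff_C_mul, coeff_X_zero, coeff_C_zero, mul_zero, add_zero]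

theorem coeff_one' (a b : ℤ) : (C a + C b * X : ℤ[X]).coeff 1 = b := by
  rw [coeff_add, coeff_C_mul, coeff_X_one, coeff_C, if_neg one_ne_zero, mul_one, zero_add]

theorem psi_eq {p q : ℤ} (w : List (Digit q)) : psi p q w = ![(val p q w).1, (val p q w).2] := by
  unfold psi
  rw [mod_eq, coeff_zero', coeff_one']

theorem dvd_iff {p q : ℤ} (u w : List (Digit q)) :
    tPoly p q ∣ poly u - poly w ↔ val p q u = val p q w := by
  constructor
  · intro h
    have h1 := (modByMonic_eq_zero_iff_dvd (tPoly_monic p q)).2 h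
    rw [sub_modByMonic, mod_eq, mod_eq, sub_eq_zero] at h1
    have h2 := congrArg (fun f => Polynomial.coeff f 0) h1
    have h3 := congrArg (fun f => Polynomial.coeff f 1) h1
    simp only [coeff_zero', coeff_one'] at h2 h3
    exact Prod.ext h2 h3
  · intro h
    obtain ⟨r, hr⟩ := poly_eq (p := p) u
    obtain ⟨s, hs⟩ := poly_eq (p := p) w
    rw [hr, hs, h]
    exact ⟨r - s, by ring⟩

/-! ### the domain -/

instance (q : ℤ) : Finite (Digit q) := by
  refine Set.Finite.to_subtype (s := {a : ℤ | |a| < |q|}) ?_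
  refine (Set.finite_Ioo (-|q|) |q|).subset fun a ha => ?_
  exact abs_lt.1 ha

theorem dom_inj {p q : ℤ} {u w : List (Digit q)} (hu : u ∈ Dom p q) (hw : w ∈ Dom p q)
    (h : val p q u = val p q w) : u = w := by
  by_contra hne
  have key : Llex u w ∨ Llex w u := by
    rcases lt_trichotomy u.length w.length with h1 | h1 | h1
    · exact Or.inl (Or.inl h1)
    · rcases lt_trichotomy u w with h2 | h2 | h2
      · exact Or.inl (Or.inr ⟨h1, h2⟩)
      · exact absurd h2 hne
      · exact Or.inr (Or.inr ⟨h1.symm, h2⟩)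
    · exact Or.inr (Or.inl h1)
  rcases key with h1 | h1
  · exact hw u h1 ((dvd_iff _ _).2 h)
  · exact hu w h1 ((dvd_iff _ _).2 h.symm)

theorem val_surj {p q : ℤ} (h : 1 + |p| < |q|) : ∀ (n : ℕ) (v : ℤ × ℤ),
    2 * v.1.natAbs + 3 * v.2.natAbs ≤ n → ∃ w, val p q w = v := by
  have hq : 0 < |q| := by
    have := abs_nonneg p
    omega
  have hq0 : q ≠ 0 := abs_pos.1 hq
  have hpq : 1 + p.natAbs < q.natAbs := by
    have h1 : ((1 + p.natAbs : ℕ) : ℤ) < (q.natAbs : ℤ) := by
      push_cast
      exact h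
    exact_mod_cast h1
  intro n
  induction n with
  | zero =>
    intro v hv
    refine ⟨[], ?_⟩
    rw [val]
    ext
    · simp only [Prod.fst_zero]; omega
    · simp only [Prod.snd_zero]; omega
  | succ n ih =>
    intro v hv
    by_cases hv0 : v = 0
    · exact ⟨[], by rw [val, hv0]⟩
    obtain ⟨c0, c1⟩ := v
    simp only at hv
    set k := c0.tdiv q with hk
    set a := c0.tmod q with ha
    have hdiv : a + q * k = c0 := Int.tmod_add_mul_tdiv c0 q
    have hka : k.natAbs = c0.natAbs / q.natAbs := Int.natAbs_tdiv _ _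
    have haa : a.natAbs = c0.natAbs % q.natAbs := Int.natAbs_tmod _ _
    have halt : |a| < |q| := by
      have h1 : a.natAbs < q.natAbs := by
        rw [haa]; exact Nat.mod_lt _ (by omega)
      rw [Int.abs_eq_natAbs, Int.abs_eq_natAbs]
      exact_mod_cast h1
    have hkq : k.natAbs * q.natAbs ≤ c0.natAbs := by
      rw [hka]; exact Nat.div_mul_le_self _ _
    have hN : 2 * (c1 + p * k).natAbs + 3 * k.natAbs ≤ n := by
      have h1 : (c1 + p * k).natAbs ≤ c1.natAbs + p.natAbs * k.natAbs := by
        refine (Int.natAbs_add_le _ _).trans ?_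
        rw [Int.natAbs_mul]
      have h2 : 2 * (c1 + p * k).natAbs + 3 * k.natAbs < 2 * c0.natAbs + 3 * c1.natAbs := by
        rcases Nat.eq_zero_or_pos k.natAbs with hk0 | hk0
        · rw [hk0] at h1 ⊢
          have h3 : c0 ≠ 0 ∨ c1 ≠ 0 := by
            by_contra hcon
            push Not at hcon
            exact hv0 (by rw [hcon.1, hcon.2]; rfl)
          omega
        · have h3 : (p.natAbs + 2) * k.natAbs ≤ q.natAbs * k.natAbs :=
            Nat.mul_le_mul_right _ (by omega)
          have h4 : (p.natAbs + 2) * k.natAbs = p.natAbs * k.natAbs + 2 * k.natAbs := by ring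
          have h5 : q.natAbs * k.natAbs = k.natAbs * q.natAbs := mul_comm _ _
          omega
      omega
    obtain ⟨w, hw⟩ := ih (c1 + p * k, k) hN
    refine ⟨⟨a, halt⟩ :: w, ?_⟩
    rw [val, hw, mx_apply]
    ext
    · simpa using hdiv
    · simp

theorem exists_dom {p q : ℤ} (h : 1 + |p| < |q|) (v : ℤ × ℤ) :
    ∃ w ∈ Dom p q, val p q w = v := by
  classical
  have hne : ∃ n, ∃ w : List (Digit q), val p q w = v ∧ w.length = n := by
    obtain ⟨w, hw⟩ := val_surj h _ v le_rfl
    exact ⟨_, w, hw, rfl⟩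
  set n := Nat.find hne with hn
  have hfin : {w : List (Digit q) | val p q w = v ∧ w.length = n}.Finite :=
    (List.finite_length_eq (Digit q) n).subset fun w hw => hw.2
  obtain ⟨w, hw, hmin⟩ := Set.exists_min_image _ (id : List (Digit q) → List (Digit q)) hfin
    (Nat.find_spec hne)
  refine ⟨w, fun u hu hd => ?_, hw.1⟩
  have hval : val p q u = v := ((dvd_iff _ _).1 hd).trans hw.1
  rcases hu with hu | ⟨hu1, hu2⟩
  · rw [hw.2] at hu
    exact Nat.find_min hne hu ⟨u, hval, rfl⟩
  · have h1 := hmin u ⟨hval, hu1.trans hw.2⟩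
    exact absurd hu2 (not_lt.2 h1)

/-- the element of the domain with a given value -/
noncomputable def rep {p q : ℤ} (h : 1 + |p| < |q|) (v : ℤ × ℤ) : List (Digit q) :=
  (exists_dom h v).choose

theorem rep_mem {p q : ℤ} (h : 1 + |p| < |q|) (v : ℤ × ℤ) : rep h v ∈ Dom p q :=
  (exists_dom h v).choose_spec.1

theorem val_rep {p q : ℤ} (h : 1 + |p| < |q|) (v : ℤ × ℤ) : val p q (rep h v) = v :=
  (exists_dom h v).choose_spec.2

/-! ### convolutions -/

theorem filterMap_range {D : Type} (u : List D) : ∀ m, u.length ≤ m →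
    (List.range m).filterMap (fun k => u[k]?) = u := by
  induction u with
  | nil => intro m _; simp
  | cons a u ih =>
    intro m hm
    obtain ⟨m, rfl⟩ : ∃ m', m = m' + 1 := ⟨m - 1, by simp at hm; omega⟩
    rw [List.range_succ_eq_map, List.filterMap_cons]
    simp only [List.length_cons, Nat.add_le_add_iff_right] at hm
    simp only [List.getElem?_cons_zero, List.filterMap_map]
    rw [show ((fun k => (a :: u)[k]?) ∘ Nat.succ) = fun k => u[k]? from by
      funext k; simp [Function.comp], ih m hm]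

theorem conv_fst {D : Type} (u v : List D) : (conv u v).filterMap Prod.fst = u := by
  unfold conv
  rw [List.filterMap_map]
  exact filterMap_range u _ (le_max_left _ _)

theorem conv_snd {D : Type} (u v : List D) : (conv u v).filterMap Prod.snd = v := by
  unfold conv
  rw [List.filterMap_map]
  exact filterMap_range v _ (le_max_right _ _)

theorem conv_length {D : Type} (u v : List D) : (conv u v).length = max u.length v.length := by
  simp [conv]

/-! ### the commutation relation -/

theorem pow_eq (p q : ℤ) (n : ℕ) : ∃ F G : ℤ, (∀ v, ((mx p q) ^ (n + 1)) v = F • v + G • mx p q v) ∧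
    q ∣ F ∧ q ∣ G - (-p) ^ n := by
  induction n with
  | zero => exact ⟨0, 1, fun v => by simp, dvd_zero _, by simp⟩
  | succ n ih =>
    obtain ⟨F, G, h1, h2, h3⟩ := ih
    refine ⟨q * G, F - p * G, fun v => ?_, dvd_mul_right _ _, ?_⟩
    · rw [pow_succ', Module.End.mul_apply, h1, map_add, map_smul, map_smul]
      simp only [mx_apply]
      ext <;> simp <;> ring
    · have : F - p * G - (-p) ^ (n + 1) = F + (-p) * (G - (-p) ^ n) := by ring
      rw [this]
      exact dvd_add h2 (Dvd.dvd.mul_left h3 _)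

theorem G_ne {p q G : ℤ} {n : ℕ} (hc : IsCoprime p q) (hpq : 1 + |p| < |q|)
    (h : q ∣ G - (-p) ^ n) : G ≠ 0 := by
  rintro rfl
  rw [zero_sub, dvd_neg] at h
  have h1 : IsCoprime ((-p) ^ n) q := (hc.neg_left).pow_left
  have h2 : IsUnit q := h1.isUnit_of_dvd' h dvd_rfl
  rw [Int.isUnit_iff_abs_eq] at h2
  have := abs_nonneg p
  omega

/-- The heart of the matter: the linear algebra. -/
theorem linear_part {a b c d p q x y : ℤ} (hdet : a * d - b * c = 1) (htr : 2 < |a + d|)
    (hxy : (x, y) ≠ (0, 0))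
    (h1 : (b - q * c) * x + (q * (a - d - p * c) - p * (b - q * c)) * y = 0)
    (h2 : (a - d - p * c) * x + (b - q * c) * y = 0) :
    b - q * c = 0 ∧ a - d - p * c = 0 := by
  set β := b - q * c with hβ
  set γ := a - d - p * c with hγ
  have hq : q * γ ^ 2 - p * β * γ - β ^ 2 = 0 := by
    have e1 : (q * γ ^ 2 - p * β * γ - β ^ 2) * y = 0 := by linear_combination γ * h1 - β * h2
    have e2 : (q * γ ^ 2 - p * β * γ - β ^ 2) * x = 0 := by
      linear_combination (q * γ - p * β) * h2 - β * h1
    rcases mul_eq_zero.1 e1 with h | h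
    · exact h
    rcases mul_eq_zero.1 e2 with h' | h'
    · exact h'
    exact absurd (by rw [h, h']) hxy
  by_cases hγ0 : γ = 0
  · rw [hγ0] at hq
    have : β ^ 2 = 0 := by linear_combination -hq
    exact ⟨pow_eq_zero_iff (two_ne_zero) |>.1 this, hγ0⟩
  exfalso
  -- `m = d γ - c β` satisfies `m² - τ m γ + γ² = 0`
  set m := d * γ - c * β with hm
  set τ := a + d with hτ
  have hm2 : m ^ 2 - τ * m * γ + γ ^ 2 = 0 := by
    have e : m ^ 2 - τ * m * γ + γ ^ 2 =
        -(c ^ 2) * (q * γ ^ 2 - p * β * γ - β ^ 2) + (1 - (a * d - b * c)) * γ ^ 2 +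
        (c * γ) * (γ * (c * q - b) + (β * (a - d - p * c))) := by
      rw [hm, hτ]; ring
    rw [e, hq, hdet, ← hγ]
    have : c * q - b = -β := by rw [hβ]; ring
    rw [this]
    ring
  have hsq : (2 * m - τ * γ) ^ 2 = (τ ^ 2 - 4) * γ ^ 2 := by linear_combination 4 * hm2
  have hdvd : γ ∣ 2 * m - τ * γ := by
    have : γ ^ 2 ∣ (2 * m - τ * γ) ^ 2 := ⟨τ ^ 2 - 4, by rw [hsq]; ring⟩
    exact (Int.pow_dvd_pow_iff two_ne_zero).1 this
  obtain ⟨s, hs⟩ := hdvd
  rw [hs] at hsq
  have hs2 : s ^ 2 = τ ^ 2 - 4 := by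
    have h3 : (s ^ 2 - (τ ^ 2 - 4)) * γ ^ 2 = 0 := by linear_combination hsq
    rcases mul_eq_zero.1 h3 with h | h
    · linarith
    · exact absurd (pow_eq_zero_iff (two_ne_zero) |>.1 h) hγ0
  have h5 : |s| ^ 2 = |τ| ^ 2 - 4 := by rw [sq_abs, sq_abs, hs2]
  have h6 := abs_nonneg s
  rcases lt_or_ge (|s|) (|τ|) with h7 | h7
  · have h8 : |s| ≤ |τ| - 1 := by omega
    nlinarith
  · nlinarith

theorem main_part {A : Matrix (Fin 2) (Fin 2) ℤ} (hdet : A.det = 1) (htr : 2 < |A.trace|)
    {p q : ℤ} (hI : Index p q) (hR : Recognizable p q A) :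
    A 0 1 - q * A 1 0 = 0 ∧ A 0 0 - A 1 1 - p * A 1 0 = 0 := by
  classical
  obtain ⟨hpq, hcop, -⟩ := hI
  rw [Matrix.det_fin_two] at hdet
  rw [Matrix.trace_fin_two] at htr
  obtain ⟨σ, hσ, Mch, hM⟩ := hR
  set N := Fintype.card σ with hN
  -- the linear map of `A`
  let lA : ℤ × ℤ →ₗ[ℤ] ℤ × ℤ :=
    { toFun := fun v => (A 0 0 * v.1 + A 0 1 * v.2, A 1 0 * v.1 + A 1 1 * v.2)
      map_add' := fun u v => by ext <;> simp <;> ring
      map_smul' := fun c v => by ext <;> simp <;> ring }
  have hlA : ∀ v, lA v = (A 0 0 * v.1 + A 0 1 * v.2, A 1 0 * v.1 + A 1 1 * v.2) := fun v => rfl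
  have hinj : Function.Injective lA := by
    intro u v h
    rw [hlA, hlA, Prod.mk.injEq] at h
    obtain ⟨h1, h2⟩ := h
    ext
    · linear_combination A 1 1 * h1 - A 0 1 * h2 - (u.1 - v.1) * hdet
    · linear_combination A 0 0 * h2 - A 1 0 * h1 - (u.2 - v.2) * hdet
  have hpsi : ∀ u w : List (Digit q), psi p q w = A.mulVec (psi p q u) ↔
      val p q w = lA (val p q u) := by
    intro u w
    rw [psi_eq, psi_eq, hlA]
    constructor
    · intro h
      ext
      · simpa [Matrix.mulVec, dotProduct, Fin.sum_univ_two] using congrFun h 0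
      · simpa [Matrix.mulVec, dotProduct, Fin.sum_univ_two] using congrFun h 1
    · intro h
      rw [Prod.ext_iff] at h
      obtain ⟨h1, h2⟩ := h
      funext i
      fin_cases i
      · simpa [Matrix.mulVec, dotProduct, Fin.sum_univ_two] using h1
      · simpa [Matrix.mulVec, dotProduct, Fin.sum_univ_two] using h2
  -- a long pair
  obtain ⟨v, hv1, hv2⟩ : ∃ v : ℤ × ℤ, N ≤ (rep hpq v).length ∧ N ≤ (rep hpq (lA v)).length := by
    by_contra hcon
    push Not at hcon
    have hrinj : Function.Injective (rep hpq) := fun u v h => by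
      rw [← val_rep hpq u, ← val_rep hpq v, h]
    have hf := List.finite_length_lt (Digit q) N
    have hf1 : {v : ℤ × ℤ | (rep hpq v).length < N}.Finite :=
      hf.preimage (f := rep hpq) (hrinj.injOn)
    have hf2 : {v : ℤ × ℤ | (rep hpq (lA v)).length < N}.Finite :=
      hf.preimage (f := fun v => rep hpq (lA v)) ((hrinj.comp hinj).injOn)
    refine (Set.infinite_univ (α := ℤ × ℤ)) ((hf1.union hf2).subset fun v _ => ?_)
    rcases lt_or_ge (rep hpq v).length N with h | h
    · exact Or.inl h
    · exact Or.inr (hcon v h)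
  set u := rep hpq v with hu
  set w := rep hpq (lA v) with hw
  have hx : conv u w ∈ Mch.accepts := by
    rw [hM]
    refine ⟨(u, w), ⟨rep_mem hpq _, rep_mem hpq _, (hpsi _ _).2 ?_⟩, rfl⟩
    rw [hu, hw, val_rep, val_rep]
  obtain ⟨a, b, c, hxe, hlen, hb, hpump⟩ := Mch.pumping_lemma hx (by
    rw [conv_length]; exact le_max_of_le_left hv1)
  -- all letters of `a` and `b` are pairs of digits
  have hsome : ∀ z ∈ a ++ b, z.1.isSome ∧ z.2.isSome := by
    intro z hz
    obtain ⟨k, hk, rfl⟩ := List.mem_iff_getElem.1 hz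
    have hkN : k < N := lt_of_lt_of_le hk (by rw [List.length_append]; exact hlen)
    have h1 : (conv u w)[k]? = some ((a ++ b)[k]) := by
      rw [hxe, List.getElem?_append_left hk, List.getElem?_eq_getElem hk]
    unfold conv at h1
    rw [List.getElem?_map, List.getElem?_range (by
      exact lt_of_lt_of_le hkN (le_max_of_le_left hv1))] at h1
    simp only [Option.map_some, Option.some.injEq] at h1
    rw [← h1, List.getElem?_eq_getElem (lt_of_lt_of_le hkN hv1),
      List.getElem?_eq_getElem (lt_of_lt_of_le hkN hv2)]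
    exact ⟨rfl, rfl⟩
  set a1 := a.filterMap Prod.fst
  set b1 := b.filterMap Prod.fst
  set c1 := c.filterMap Prod.fst
  set a2 := a.filterMap Prod.snd
  set b2 := b.filterMap Prod.snd
  set c2 := c.filterMap Prod.snd
  have la1 : a1.length = a.length :=
    List.filterMap_length_eq_length.2 fun z hz => (hsome z (List.mem_append_left _ hz)).1
  have la2 : a2.length = a.length :=
    List.filterMap_length_eq_length.2 fun z hz => (hsome z (List.mem_append_left _ hz)).2
  have lb1 : b1.length = b.length :=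
    List.filterMap_length_eq_length.2 fun z hz => (hsome z (List.mem_append_right _ hz)).1
  have lb2 : b2.length = b.length :=
    List.filterMap_length_eq_length.2 fun z hz => (hsome z (List.mem_append_right _ hz)).2
  -- the pumped words
  have hword : ∀ t : List (Option (Digit q) × Option (Digit q)), (t = [] ∨ t = b ∨ t = b ++ b) →
      a1 ++ t.filterMap Prod.fst ++ c1 ∈ Dom p q ∧
      val p q (a2 ++ t.filterMap Prod.snd ++ c2) = lA (val p q (a1 ++ t.filterMap Prod.fst ++ c1)) := by
    intro t ht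
    have hmem : a ++ t ++ c ∈ Mch.accepts := by
      refine hpump ?_
      refine Language.mem_mul.2 ⟨a ++ t, Language.mem_mul.2 ⟨a, rfl, t, ?_, rfl⟩, c, rfl, rfl⟩
      rw [Language.mem_kstar]
      rcases ht with ht | ht | ht
      · exact ⟨[], ht, by simp⟩
      · refine ⟨[b], by simp [ht], fun y hy => ?_⟩
        rw [List.mem_singleton] at hy
        exact hy
      · refine ⟨[b, b], by simp [ht], fun y hy => ?_⟩
        simp only [List.mem_cons, List.not_mem_nil, or_false, or_self] at hy
        exact hy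
    rw [hM] at hmem
    obtain ⟨r, ⟨hr1, -, hr3⟩, hr⟩ := hmem
    have e1 : r.1 = a1 ++ t.filterMap Prod.fst ++ c1 := by
      rw [← conv_fst r.1 r.2, ← hr, List.filterMap_append, List.filterMap_append]
    have e2 : r.2 = a2 ++ t.filterMap Prod.snd ++ c2 := by
      rw [← conv_snd r.1 r.2, ← hr, List.filterMap_append, List.filterMap_append]
    rw [← e1, ← e2]
    exact ⟨hr1, (hpsi _ _).1 hr3⟩
  obtain ⟨d0, v0⟩ := hword [] (Or.inl rfl)
  obtain ⟨d1, v1⟩ := hword b (Or.inr (Or.inl rfl))
  obtain ⟨d2, v2⟩ := hword (b ++ b) (Or.inr (Or.inr rfl))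
  rw [List.filterMap_append, List.filterMap_append] at v2
  rw [List.filterMap_nil, List.append_nil] at d0
  rw [List.filterMap_nil, List.filterMap_nil, List.append_nil, List.append_nil] at v0
  set T := mx p q with hT
  -- differences
  set y0 := val p q c1
  set z0 := val p q c2
  have hV : ∀ s t : List (Digit q), val p q (s ++ t) = val p q s + (T ^ s.length) (val p q t) :=
    fun s t => val_append s t
  have hv1' : val p q (a1 ++ b1 ++ c1) =
      val p q a1 + (T ^ a.length) (val p q b1 + (T ^ b.length) y0) := by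
    rw [List.append_assoc, hV, hV, la1, lb1]
  have hw1' : val p q (a2 ++ b2 ++ c2) =
      val p q a2 + (T ^ a.length) (val p q b2 + (T ^ b.length) z0) := by
    rw [List.append_assoc, hV, hV, la2, lb2]
  have hv2' : val p q (a1 ++ (b1 ++ b1) ++ c1) =
      val p q a1 + (T ^ a.length) (val p q b1 + (T ^ b.length) (val p q b1 + (T ^ b.length) y0)) := by
    rw [List.append_assoc, List.append_assoc, hV, hV, hV, la1, lb1]
  have hw2' : val p q (a2 ++ (b2 ++ b2) ++ c2) =
      val p q a2 + (T ^ a.length) (val p q b2 + (T ^ b.length) (val p q b2 + (T ^ b.length) z0)) := by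
    rw [List.append_assoc, List.append_assoc, hV, hV, hV, la2, lb2]
  have hv0' : val p q (a1 ++ c1) = val p q a1 + (T ^ a.length) y0 := by rw [hV, la1]
  have hw0' : val p q (a2 ++ c2) = val p q a2 + (T ^ a.length) z0 := by rw [hV, la2]
  rw [hv0', hw0'] at v0
  rw [hv1', hw1'] at v1
  rw [hv2', hw2'] at v2
  have hcomm : ∀ x, (T ^ b.length) ((T ^ a.length) x) = (T ^ a.length) ((T ^ b.length) x) := by
    intro x
    rw [← Module.End.mul_apply, ← Module.End.mul_apply, ← pow_add, ← pow_add, add_comm]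
  set D := (T ^ a.length) (val p q b1 + (T ^ b.length) y0 - y0) with hD
  set E := (T ^ a.length) (val p q b2 + (T ^ b.length) z0 - z0) with hE
  have hED : E = lA D := by
    have : lA D = lA (val p q a1 + (T ^ a.length) (val p q b1 + (T ^ b.length) y0)) -
        lA (val p q a1 + (T ^ a.length) y0) := by
      rw [← map_sub, hD, map_sub]
      congr 1
      abel
    rw [this, ← v0, ← v1, hE, map_sub]
    abel
  have hED2 : (T ^ b.length) E = lA ((T ^ b.length) D) := by
    have : lA ((T ^ b.length) D) =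
        lA (val p q a1 + (T ^ a.length) (val p q b1 + (T ^ b.length) (val p q b1 +
          (T ^ b.length) y0))) -
        lA (val p q a1 + (T ^ a.length) (val p q b1 + (T ^ b.length) y0)) := by
      rw [← map_sub, hD, hcomm, map_sub, map_sub (T ^ a.length)]
      congr 1
      simp only [map_add]
      abel
    rw [this, ← v1, ← v2, hE, hcomm, map_sub, map_sub (T ^ a.length)]
    simp only [map_add]
    abel
  have hD0 : D ≠ 0 := by
    intro h0
    have heq : val p q (a1 ++ c1) = val p q (a1 ++ b1 ++ c1) := by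
      rw [hv0', hv1']
      have : (T ^ a.length) (val p q b1 + (T ^ b.length) y0) = (T ^ a.length) y0 := by
        rw [hD, map_sub, sub_eq_zero] at h0
        exact h0
      rw [this]
    have h3 := congrArg List.length (dom_inj d0 d1 heq)
    simp only [List.length_append] at h3
    have h4 : b.length ≠ 0 := fun h => hb (List.length_eq_zero_iff.1 h)
    have h5 : (List.filterMap Prod.fst b).length = b.length := lb1
    omega
  -- commutation
  have hb0 : b.length ≠ 0 := fun h => hb (List.length_eq_zero_iff.1 h)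
  obtain ⟨F, G, hF, hF2, hG⟩ := pow_eq p q (b.length - 1)
  rw [show b.length - 1 + 1 = b.length from by omega] at hF
  have hG0 := G_ne hcop hpq hG
  rw [hED, hF, hF, map_add, map_smul, map_smul] at hED2
  have hfin : mx p q (lA D) = lA (mx p q D) := by
    have h6 : G • mx p q (lA D) = G • lA (mx p q D) := by
      have := hED2
      exact add_left_cancel this
    exact smul_right_injective _ hG0 h6
  obtain ⟨x, y⟩ := D
  rw [hlA, hlA, mx_apply, mx_apply, Prod.mk.injEq] at hfin
  simp only at hfin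
  obtain ⟨g1, g2⟩ := hfin
  refine linear_part (x := x) (y := y) hdet htr (by simpa using hD0) ?_ ?_
  · linear_combination -g1
  · linear_combination g2

/-- **Anosov matrices and Nies–Semukhin presentations.**
(1) If the Anosov matrix `A ∈ SL(2, ℤ)` is FA-recognizable with respect to `ψ_{p,q}`,
`(p, q) ∈ 𝒫`, then `A 0 1 = q A 1 0` and `A 0 0 - A 1 1 = p A 1 0`: it commutes with the companion
matrix of `x² + p x - q`.
(2) An Anosov matrix `A` with `|A 0 1| ≤ |A 1 0| + |A 0 0 - A 1 1|` is FA-recognizable with respect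
to no `ψ_{p,q}`.
(3) This applies to the Anosov matrix `(2 1; 1 1)`. -/
theorem result :
    (∀ A : Matrix (Fin 2) (Fin 2) ℤ, A.det = 1 → 2 < |A.trace| → ∀ p q : ℤ, Index p q →
      Recognizable p q A → A 0 1 = q * A 1 0 ∧ A 0 0 - A 1 1 = p * A 1 0) ∧
    (∀ A : Matrix (Fin 2) (Fin 2) ℤ, A.det = 1 → 2 < |A.trace| →
      |A 0 1| ≤ |A 1 0| + |A 0 0 - A 1 1| → ∀ p q : ℤ, Index p q → ¬ Recognizable p q A) ∧
    ((!![2, 1; 1, 1] : Matrix (Fin 2) (Fin 2) ℤ).det = 1 ∧
      2 < |(!![2, 1; 1, 1] : Matrix (Fin 2) (Fin 2) ℤ).trace| ∧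
      ∀ p q : ℤ, Index p q → ¬ Recognizable p q !![2, 1; 1, 1]) := by
  have part1 : ∀ A : Matrix (Fin 2) (Fin 2) ℤ, A.det = 1 → 2 < |A.trace| → ∀ p q : ℤ,
      Index p q → Recognizable p q A → A 0 1 = q * A 1 0 ∧ A 0 0 - A 1 1 = p * A 1 0 := by
    intro A hdet htr p q hI hR
    obtain ⟨h1, h2⟩ := main_part hdet htr hI hR
    exact ⟨by linarith, by linarith⟩
  have part2 : ∀ A : Matrix (Fin 2) (Fin 2) ℤ, A.det = 1 → 2 < |A.trace| →
      |A 0 1| ≤ |A 1 0| + |A 0 0 - A 1 1| → ∀ p q : ℤ, Index p q → ¬ Recognizable p q A := by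
    intro A hdet htr hA p q hI hR
    obtain ⟨h1, h2⟩ := part1 A hdet htr p q hI hR
    have hpq := hI.1
    have hc : A 1 0 ≠ 0 := by
      intro h0
      rw [h0, mul_zero] at h1 h2
      rw [Matrix.det_fin_two, h1, h0] at hdet
      rw [Matrix.trace_fin_two] at htr
      have h3 : A 0 0 = A 1 1 := by linarith
      rw [h3] at hdet htr
      have h4 : A 1 1 * A 1 1 = 1 := by linarith
      rcases mul_self_eq_one_iff.1 h4 with h5 | h5 <;> rw [h5] at htr <;> norm_num at htr
    have hcp : 0 < |A 1 0| := abs_pos.2 hc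
    rw [h1, h2, abs_mul, abs_mul] at hA
    nlinarith
  refine ⟨part1, part2, ?_, ?_, ?_⟩
  · simp [Matrix.det_fin_two]
  · simp [Matrix.trace_fin_two]
  · refine part2 _ ?_ ?_ ?_
    · simp [Matrix.det_fin_two]
    · simp [Matrix.trace_fin_two]
    · simp

end Pool.Agent.Results.MP_334179_al.CatMap
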